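import Pool.Agent.Helper4.SQ.GoalsL

/-!
Packet SQL-FAM (MP_bb32d1_al): a highest weight vector generates a family.
-/

set_option autoImplicit false

namespace Pool.Agent.Helper66.SQ

open Pool.Agent.Helper4.SQ

section

variable {I : Type} [DecidableEq I] {L : Type} [LieRing L] [LieAlgebra ℂ L] (G : GLd I L)

/-- the weight. -/
def Wt (β : I → ℤ) (X : L) : Prop := ∀ z, ⁅G.e z z, X⁆ = ((β z : ℤ) : ℂ) • X

/-- indicator. -/
def dl (a z : I) : ℤ := if z = a then 1 else 0

theorem dl_self (a : I) : dl a a = 1 := if_pos rfl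

theorem dl_ne {a z : I} (h : z ≠ a) : dl a z = 0 := if_neg h

variable {G}

theorem Wt.lie {β γ : I → ℤ} {X Y : L} (hX : Wt G β X) (hY : Wt G γ Y) :
    Wt G (fun z => β z + γ z) ⁅X, Y⁆ := by
  intro z
  rw [leibniz_lie, hX z, hY z, smul_lie, lie_smul, ← add_smul]
  push_cast
  rfl

theorem Wt.congr {β γ : I → ℤ} {X : L} (hX : Wt G β X) (h : ∀ z, β z = γ z) : Wt G γ X := by
  intro z
  rw [hX z, h z]

theorem Wt.sub {β : I → ℤ} {X : L} (hX : Wt G β X) (a b : I) :
    ⁅G.e a a - G.e b b, X⁆ = ((β a - β b : ℤ) : ℂ) • X := by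
  rw [sub_lie, hX a, hX b, ← sub_smul]
  push_cast
  rfl

variable (G)

theorem wt_e (a b : I) : Wt G (fun z => dl a z - dl b z) (G.e a b) := by
  intro z
  change _ = (((dl a z - dl b z : ℤ)) : ℂ) • G.e a b
  rw [G.gl]
  by_cases h1 : z = a
  · subst h1
    by_cases h2 : z = b
    · subst h2
      simp [dl_self]
    · rw [if_pos rfl, if_neg h2, dl_self, dl_ne h2]
      simp
  · by_cases h2 : z = b
    · subst h2
      rw [if_neg h1, if_pos rfl, dl_self, dl_ne h1]
      simp
    · rw [if_neg h1, if_neg h2, dl_ne h1, dl_ne h2]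
      simp

theorem e_mul {a b c : I} (h : a ≠ c) : ⁅G.e a b, G.e b c⁆ = G.e a c := by
  rw [G.gl, if_pos rfl, if_neg h, sub_zero]

theorem e_mul' (a b : I) : ⁅G.e a b, G.e b a⁆ = G.e a a - G.e b b := by
  rw [G.gl, if_pos rfl, if_pos rfl]

theorem e_com {a b c d : I} (h1 : b ≠ c) (h2 : a ≠ d) : ⁅G.e a b, G.e c d⁆ = 0 := by
  rw [G.gl, if_neg h1, if_neg h2, sub_zero]

theorem e_mulr {a b c : I} (h : b ≠ c) : ⁅G.e a b, G.e c a⁆ = - G.e c b := by
  rw [G.gl, if_neg h, if_pos rfl, zero_sub]

variable {i j : I} (hij : i ≠ j) {u : L} (hw : Wt G (fun z => dl i z - dl j z) u)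
  (hs : ∀ a b, a ≠ b → b ≠ i → a ≠ j → ⁅G.e a b, u⁆ = 0)

include hij hw hs in
theorem zero_rel {a b : I} (hai : a ≠ i) (haj : a ≠ j) (hbi : b ≠ i) (hbj : b ≠ j) :
    ⁅G.e a i, ⁅G.e b i, u⁆⁆ = 0 := by
  have hwb : Wt G (fun z => dl b z - dl j z) ⁅G.e b i, u⁆ :=
    ((wt_e G b i).lie hw).congr fun z => by ring
  have hX := ((wt_e G a i).lie hwb)
  refine G.up a i _ _ hai hX ?_ ?_
  · rw [dl_self, dl_ne hai, dl_ne haj, dl_ne hai.symm, dl_self, dl_ne hbi.symm, dl_ne hij]
    have : 0 ≤ dl b a := by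
      unfold dl
      split_ifs <;> norm_num
    linarith
  · have h0 : ⁅G.e i a, u⁆ = 0 := hs i a hai.symm hai hij
    rw [leibniz_lie, e_mul', hwb.sub, leibniz_lie (G.e i a) (G.e b i) u, h0, lie_zero, add_zero,
      dl_ne hbi.symm, dl_ne hij, dl_ne haj]
    by_cases hab : a = b
    · subst hab
      rw [e_mul', hw.sub, dl_self, dl_self, dl_ne hij, dl_ne hai, dl_ne haj]
      simp [-lie_skew]
    · rw [e_mulr G hab, neg_lie, hs b a (Ne.symm hab) hai hbj, dl_ne hab]
      simp

/-- the column `j`. -/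
def cc (i : I) (u : L) (a : I) : L := if a = i then u else ⁅G.e a i, u⁆

include hij hw hs in
theorem cc_rel {a x y : I} (haj : a ≠ j) (hxj : x ≠ j) (hxy : x ≠ y) :
    ⁅G.e x y, cc G i u a⁆ = if y = a then cc G i u x else 0 := by
  by_cases hai : a = i
  · subst hai
    rw [cc, if_pos rfl]
    by_cases hy : y = a
    · subst hy
      rw [if_pos rfl, cc, if_neg hxy]
    · rw [if_neg hy]
      exact hs x y hxy hy hxj
  · rw [cc, if_neg hai, leibniz_lie]
    by_cases hy : y = a
    · subst hy
      rw [if_pos rfl]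
      by_cases hx : x = i
      · subst hx
        rw [e_mul', hw.sub, hs x y hxy hai hij, cc, if_pos rfl, dl_self, dl_ne hij, dl_ne hai,
          dl_ne haj]
        simp
      · rw [e_mul G hx, hs x y hxy hai hxj, cc, if_neg hx, lie_zero, add_zero]
    · rw [if_neg hy]
      by_cases hx : x = i
      · subst hx
        rw [e_mulr G hy, neg_lie, hs a y (Ne.symm hy) (Ne.symm hxy) haj,
          hs x y hxy (Ne.symm hxy) hij]
        simp
      · rw [e_com G hy hx, zero_lie, zero_add]
        by_cases hyi : y = i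
        · subst hyi
          exact zero_rel G hij hw hs hai haj hx hxj
        · rw [hs x y hxy hyi hxj, lie_zero]

include hw in
theorem cc_wt (a : I) : Wt G (fun z => dl a z - dl j z) (cc G i u a) := by
  unfold cc
  split_ifs with h
  · subst h
    exact hw
  · exact ((wt_e G a i).lie hw).congr fun z => by ring

/-- the entries outside the row and the column `j`. -/
def vv (i j : I) (u : L) (a b : I) : L := ⁅cc G i u a, G.e j b⁆

include hw in
theorem vv_wt (a b : I) : Wt G (fun z => dl a z - dl b z) (vv G i j u a b) :=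
  ((cc_wt G hw a).lie (wt_e G j b)).congr fun z => by ring

include hij hw hs in
theorem vv_rel {a b x y : I} (haj : a ≠ j) (hbj : b ≠ j) (hab : a ≠ b) (hxj : x ≠ j)
    (hxy : x ≠ y) (hyj : y ≠ j) :
    ⁅G.e x y, vv G i j u a b⁆ = (if y = a then vv G i j u x b else 0) -
      (if x = b then vv G i j u a y else 0) := by
  rw [vv, leibniz_lie, cc_rel G hij hw hs haj hxj hxy, G.gl, if_neg hyj, zero_sub, lie_neg]
  by_cases hy : y = a
  · by_cases hx : x = b
    · simp only [if_pos hy, if_pos hx, vv]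
      rw [sub_eq_add_neg]
    · simp only [if_pos hy, if_neg hx, vv]
      simp
  · by_cases hx : x = b
    · simp only [if_neg hy, if_pos hx, vv]
      simp
    · simp only [if_neg hy, if_neg hx]
      simp

include hij hw hs in
theorem vv_relj {a b x : I} (haj : a ≠ j) (hbj : b ≠ j) (hab : a ≠ b) (hxj : x ≠ j) :
    ⁅G.e x j, vv G i j u a b⁆ = - (if x = b then cc G i u a else 0) := by
  rw [vv, leibniz_lie, cc_rel G hij hw hs haj hxj hxj, if_neg haj.symm, zero_lie, zero_add]
  by_cases hx : x = b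
  · subst hx
    rw [if_pos rfl, e_mul', ← lie_skew, (cc_wt G hw a).sub, dl_ne hab.symm, dl_ne hxj,
      dl_ne haj.symm, dl_self]
    simp
  · rw [if_neg hx, e_mul G hx, ← lie_skew, cc_rel G hij hw hs haj hxj hx, if_neg hab.symm]

include hij hw hs in
theorem vv_zero {a a' b : I} (haj : a ≠ j) (ha'j : a' ≠ j) (haa' : a ≠ a') (hbj : b ≠ j)
    (hab : a ≠ b) : ⁅vv G i j u a a', G.e j b⁆ = 0 := by
  have hX := ((vv_wt G hw a a').lie (wt_e G j b))
  refine G.up j a' _ _ ha'j.symm hX ?_ ?_
  · rw [dl_ne haj.symm, dl_ne ha'j.symm, dl_self, dl_ne hbj.symm, dl_ne haa'.symm, dl_self,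
      dl_ne ha'j]
    have : 0 ≤ dl b a' := by
      unfold dl
      split_ifs <;> norm_num
    linarith
  · rw [leibniz_lie, vv_relj G hij hw hs haj ha'j haa' ha'j, if_pos rfl, neg_lie]
    by_cases hb : a' = b
    · subst hb
      rw [e_mul', ← lie_skew (vv G i j u a a'), (vv_wt G hw a a').sub, dl_ne haa'.symm, dl_self,
        dl_ne haj.symm, dl_ne ha'j.symm, vv]
      simp [-lie_skew]
    · rw [e_mul G hb, ← lie_skew (vv G i j u a a'),
        vv_rel G hij hw hs haj ha'j haa' ha'j hb hbj, if_neg hab.symm, if_pos rfl, vv]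
      simp [-lie_skew]

include hij hw hs in
theorem ww_indep {a a' b : I} (haj : a ≠ j) (ha'j : a' ≠ j) (hbj : b ≠ j) (hab : a ≠ b)
    (ha'b : a' ≠ b) :
    ⁅G.e j a, vv G i j u a b⁆ = ⁅G.e j a', vv G i j u a' b⁆ := by
  by_cases haa' : a = a'
  · subst haa'
    rfl
  · have h1 : ∀ t, t ≠ j → ⁅G.e j t, vv G i j u t b⁆ = ⁅⁅G.e j t, cc G i u t⁆, G.e j b⁆ := by
      intro t ht
      rw [vv, leibniz_lie, e_com G ht hbj.symm, lie_zero, add_zero]
    have h2 : cc G i u a' = ⁅G.e a' a, cc G i u a⁆ := by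
      rw [cc_rel G hij hw hs haj ha'j (Ne.symm haa'), if_pos rfl]
    have h3 : ⁅G.e j a', cc G i u a'⁆ = ⁅G.e j a, cc G i u a⁆ -
        ⁅G.e a' a, vv G i j u a a'⁆ := by
      rw [h2, leibniz_lie, e_mul G haj.symm, ← lie_skew (G.e j a') (cc G i u a), lie_neg, vv,
        sub_eq_add_neg]
    rw [h1 a haj, h1 a' ha'j, h3, sub_lie, lie_lie (G.e a' a), vv_zero G hij hw hs haj ha'j haa'
      hbj hab, e_com G haj ha'b, lie_zero, lie_zero, sub_zero, sub_zero]

end

theorem exists_avoid {I : Type} [Fintype I] [DecidableEq I] (h5 : 5 ≤ Fintype.card I)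
    (s : Finset I) (hs : s.card ≤ 4) : ∃ t, t ∉ s := by
  by_contra hcon
  push Not at hcon
  have h1 : s = Finset.univ := Finset.eq_univ_iff_forall.2 hcon
  rw [h1, Finset.card_univ] at hs
  omega

theorem exists_avoid4 {I : Type} [Fintype I] [DecidableEq I] (h5 : 5 ≤ Fintype.card I)
    (a b c d : I) : ∃ t, t ≠ a ∧ t ≠ b ∧ t ≠ c ∧ t ≠ d := by
  obtain ⟨t, ht⟩ := exists_avoid h5 {a, b, c, d} Finset.card_le_four
  simp only [Finset.mem_insert, Finset.mem_singleton, not_or] at ht
  exact ⟨t, ht.1, ht.2.1, ht.2.2.1, ht.2.2.2⟩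

theorem sFAM : S_FAM := by
  intro I _ _ L _ _ G h5 i j u hij hw' hs
  have hw : Wt G (fun z => dl i z - dl j z) u := hw'
  choose t ht using fun b : I => exists_avoid4 h5 j b j b
  let U : I → I → L := fun a b => if a = b then 0 else if b = j then cc G i u a else
    if a = j then ⁅G.e j (t b), vv G i j u (t b) b⁆ else vv G i j u a b
  have Uj : ∀ a, a ≠ j → U a j = cc G i u a := by
    intro a ha
    simp only [U, if_neg ha, if_true]
  have Uv : ∀ a b, a ≠ j → b ≠ j → a ≠ b → U a b = vv G i j u a b := by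
    intro a b ha hb hab
    simp only [U, if_neg hab, if_neg hb, if_neg ha]
  have Uw : ∀ a b, a ≠ j → b ≠ j → a ≠ b → U j b = ⁅G.e j a, vv G i j u a b⁆ := by
    intro a b ha hb hab
    simp only [U, if_neg hb.symm, if_neg hb, if_true]
    exact ww_indep G hij hw hs (ht b).1 ha hb (ht b).2.1 hab
  refine ⟨U, ⟨?_, ?_, ?_⟩, ?_⟩
  · intro x y c d hxy hcd hn
    by_cases hd : d = j
    · subst hd
      have hc : c ≠ d := hcd
      rw [Uj c hc]
      by_cases hx : x = d
      · subst hx
        have hyc : y ≠ c := fun h => hn ⟨h, rfl⟩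
        rw [if_neg hyc, if_pos rfl, Uv c y hc (Ne.symm hxy) (Ne.symm hyc), vv, zero_sub, lie_skew]
      · rw [cc_rel G hij hw hs hc hx hxy, if_neg hx, sub_zero]
        by_cases hy : y = c
        · rw [if_pos hy, if_pos hy, Uj x hx]
        · rw [if_neg hy, if_neg hy]
    · by_cases hc : c = j
      · subst hc
        obtain ⟨a, ha1, ha2, ha3, ha4⟩ := exists_avoid4 h5 c d x y
        rw [Uw a d ha1 hd ha2, leibniz_lie]
        by_cases hy : y = c
        · subst hy
          have hxd : x ≠ d := fun h => hn ⟨rfl, h⟩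
          rw [e_mul G (Ne.symm ha3), vv_relj G hij hw hs ha1 hd ha2 hxy, if_neg hxd,
            vv_rel G hij hw hs ha1 hd ha2 hxy (Ne.symm ha3) ha1, if_pos rfl, if_neg hxd,
            if_pos rfl, if_neg hxd, Uv x d hxy hd hxd]
          simp
        · by_cases hx : x = c
          · subst hx
            rw [e_com G hy (Ne.symm ha1), zero_lie, zero_add,
              ← lie_skew (G.e x y), vv_zero G hij hw hs ha1 hd ha2 hy ha4, if_neg hy,
              if_neg (Ne.symm hd)]
            simp
          · rw [e_com G hy (Ne.symm ha3), zero_lie, zero_add,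
              vv_rel G hij hw hs ha1 hd ha2 hx hxy hy, if_neg (Ne.symm ha4), if_neg hy]
            by_cases hxd : x = d
            · rw [if_pos hxd, if_pos hxd, Uw a y ha1 hy ha4]
              simp
            · rw [if_neg hxd, if_neg hxd]
              simp
      · rw [Uv c d hc hd hcd]
        by_cases hx : x = j
        · subst hx
          rw [if_neg (Ne.symm hd)]
          by_cases hy : y = c
          · subst hy
            rw [if_pos rfl, Uw y d hc hd hcd, sub_zero]
          · rw [if_neg hy, ← lie_skew, vv_zero G hij hw hs hc hd hcd (Ne.symm hxy) (Ne.symm hy)]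
            simp
        · by_cases hy : y = j
          · subst hy
            rw [vv_relj G hij hw hs hc hd hcd hx, if_neg (Ne.symm hc), zero_sub, Uj c hc]
          · rw [vv_rel G hij hw hs hc hd hcd hx hxy hy]
            by_cases hyc : y = c
            · have hxd : x ≠ d := fun h => hn ⟨hyc, h⟩
              rw [if_pos hyc, if_pos hyc, if_neg hxd, if_neg hxd, Uv x d hx hd hxd]
            · rw [if_neg hyc, if_neg hyc]
              by_cases hxd : x = d
              · rw [if_pos hxd, if_pos hxd, Uv c y hc hy (Ne.symm hyc)]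
              · rw [if_neg hxd, if_neg hxd]
  · intro z c d hcd
    have key : Wt G (fun z => dl c z - dl d z) (U c d) := by
      by_cases hd : d = j
      · subst hd
        rw [Uj c hcd]
        exact cc_wt G hw c
      · by_cases hc : c = j
        · subst hc
          rw [Uw (t d) d (ht d).1 hd (ht d).2.1]
          exact ((wt_e G c (t d)).lie (vv_wt G hw (t d) d)).congr fun z => by ring
        · rw [Uv c d hc hd hcd]
          exact vv_wt G hw c d
    exact key z
  · intro a
    simp [U]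
  · rw [Uj i hij, cc, if_pos rfl]

end Pool.Agent.Helper66.SQ
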